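import Pool.Agent.BEQ.Stmts

set_option autoImplicit false

/-!
# BEQ, row KYF: Ky Fan
-/

namespace Pool.Agent.BEQ.H58

open Set Filter Topology MeasureTheory
open scoped InnerProductSpace
open Pool.Agent.BEQ

section

variable {H : Type} [NormedAddCommGroup H] [InnerProductSpace ℝ H]

theorem kyfan [CompleteSpace H] (qfo : QfoStmt) {T : H →L[ℝ] H} {v : ℕ → H} {μ : ℕ → ℝ}
    (hT : Dg T v μ) {ι : Type} [Fintype ι] (e : ι → H) (he : Orthonormal ℝ e) :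
    ∑ j, ⟪T (e j), e j⟫_ℝ ≤ ∑ k ∈ Finset.range (Fintype.card ι), μ k := by
  classical
  obtain ⟨-, hq, -, hr⟩ := qfo H T v μ hT
  rcases Nat.eq_zero_or_pos (Fintype.card ι) with h0 | hpos
  · have : IsEmpty ι := Fintype.card_eq_zero_iff.1 h0
    simp
  set n := Fintype.card ι with hn
  set m := μ (n - 1) with hm
  have hmpos : 0 < m := hT.pos _
  have hS : HasSum (fun k => ∑ j, μ k * ⟪v k, e j⟫_ℝ ^ 2) (∑ j, ⟪T (e j), e j⟫_ℝ) :=
    hasSum_sum fun j _ => hq (e j)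
  choose r hr0 hr1 _ using fun j => hr (e j) 0
  have hW : HasSum (fun k => ∑ j, ⟪v k, e j⟫_ℝ ^ 2) (∑ j, (‖e j‖ ^ 2 - r j)) :=
    hasSum_sum fun j _ => hr1 j
  have hWle : ∑ j, (‖e j‖ ^ 2 - r j) ≤ n := by
    have h1 : ∑ j, (‖e j‖ ^ 2 - r j) ≤ ∑ _j : ι, (1 : ℝ) := by
      refine Finset.sum_le_sum fun j _ => ?_
      rw [he.1 j]
      have := hr0 j
      linarith
    simpa [hn] using h1
  have hw1 : ∀ k, ∑ j, ⟪v k, e j⟫_ℝ ^ 2 ≤ 1 := by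
    intro k
    have h1 := he.sum_inner_products_le (v k) (s := Finset.univ)
    rw [hT.on.1 k] at h1
    simpa [Real.norm_eq_abs, sq_abs, real_inner_comm] using h1
  have hw0 : ∀ k, 0 ≤ ∑ j, ⟪v k, e j⟫_ℝ ^ 2 := fun k => Finset.sum_nonneg fun j _ => sq_nonneg _
  have h1 : HasSum (fun k => (μ k - m) * ∑ j, ⟪v k, e j⟫_ℝ ^ 2)
      (∑ j, ⟪T (e j), e j⟫_ℝ - m * ∑ j, (‖e j‖ ^ 2 - r j)) := by
    have h := hS.sub (hW.mul_left m)
    have hf : (fun k => (μ k - m) * ∑ j, ⟪v k, e j⟫_ℝ ^ 2) =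
        fun k => ∑ j, μ k * ⟪v k, e j⟫_ℝ ^ 2 - m * ∑ j, ⟪v k, e j⟫_ℝ ^ 2 := by
      funext k
      rw [← Finset.mul_sum]
      ring
    rw [hf]
    exact h
  have h2 : HasSum (fun k => if k ∈ Finset.range n then μ k - m else 0)
      (∑ k ∈ Finset.range n, (μ k - m)) := by
    have h : HasSum (fun k => if k ∈ Finset.range n then μ k - m else (0 : ℝ))
        (∑ k ∈ Finset.range n, if k ∈ Finset.range n then μ k - m else (0 : ℝ)) :=
      hasSum_sum_of_ne_finset_zero (fun k hk => if_neg hk)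
    rwa [Finset.sum_congr rfl (fun k hk => if_pos hk)] at h
  have h3 := hasSum_le (fun k => ?_) h1 h2
  · have h5 : ∑ k ∈ Finset.range n, (μ k - m) = ∑ k ∈ Finset.range n, μ k - n * m := by
      rw [Finset.sum_sub_distrib, Finset.sum_const, Finset.card_range, nsmul_eq_mul]
    rw [h5] at h3
    have h4 : m * ∑ j, (‖e j‖ ^ 2 - r j) ≤ m * n := mul_le_mul_of_nonneg_left hWle hmpos.le
    linarith
  · by_cases hk : k ∈ Finset.range n
    · rw [if_pos hk]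
      have h5 : m ≤ μ k := hT.anti (by have := Finset.mem_range.1 hk; omega)
      calc (μ k - m) * ∑ j, ⟪v k, e j⟫_ℝ ^ 2 ≤ (μ k - m) * 1 :=
            mul_le_mul_of_nonneg_left (hw1 k) (by linarith)
        _ = μ k - m := mul_one _
    · rw [if_neg hk]
      have h5 : μ k ≤ m := hT.anti (by
        have : ¬ k < n := fun h => hk (Finset.mem_range.2 h)
        omega)
      exact mul_nonpos_of_nonpos_of_nonneg (by linarith) (hw0 k)

/-- Cauchy-Schwarz for a nonnegative symmetric form -/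
theorem csf (A : H →L[ℝ] H) (hs : ∀ h k, ⟪A h, k⟫_ℝ = ⟪h, A k⟫_ℝ)
    (hp : ∀ h, 0 ≤ ⟪A h, h⟫_ℝ) (x y : H) :
    ⟪A x, y⟫_ℝ ^ 2 ≤ ⟪A x, x⟫_ℝ * ⟪A y, y⟫_ℝ := by
  have h1 : ∀ t : ℝ, 0 ≤ ⟪A y, y⟫_ℝ * (t * t) + (2 * ⟪A x, y⟫_ℝ) * t + ⟪A x, x⟫_ℝ := by
    intro t
    have h := hp (x + t • y)
    rw [map_add, map_smul, inner_add_left, inner_add_right, inner_add_right, real_inner_smul_left,
      real_inner_smul_left, real_inner_smul_right, real_inner_smul_right, hs y x,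
      real_inner_comm (A x) y] at h
    linarith
  have h2 := discrim_le_zero h1
  unfold discrim at h2
  nlinarith

theorem par (A : H →L[ℝ] H) (hp : ∀ h, 0 ≤ ⟪A h, h⟫_ℝ) (x y : H) :
    ⟪A (x + y), x + y⟫_ℝ ≤ 2 * ⟪A x, x⟫_ℝ + 2 * ⟪A y, y⟫_ℝ := by
  have h1 := hp (x - y)
  rw [map_sub, inner_sub_left, inner_sub_right, inner_sub_right] at h1
  rw [map_add, inner_add_left, inner_add_right, inner_add_right]
  linarith

theorem norm_le (A : H →L[ℝ] H) (hs : ∀ h k, ⟪A h, k⟫_ℝ = ⟪h, A k⟫_ℝ)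
    (hp : ∀ h, 0 ≤ ⟪A h, h⟫_ℝ) (C : ℝ) (hC0 : 0 ≤ C) (hC : ∀ h, ⟪A h, h⟫_ℝ ≤ C * ‖h‖ ^ 2) :
    ‖A‖ ≤ C := by
  refine A.opNorm_le_bound hC0 fun x => ?_
  have h1 := csf A hs hp x (A x)
  rw [real_inner_self_eq_norm_sq] at h1
  have h2 : ⟪A x, x⟫_ℝ * ⟪A (A x), A x⟫_ℝ ≤ (C * ‖x‖ ^ 2) * (C * ‖A x‖ ^ 2) :=
    mul_le_mul (hC x) (hC (A x)) (hp _) (by positivity)
  rcases eq_or_lt_of_le (norm_nonneg (A x)) with h0 | h0
  · rw [← h0]
    positivity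
  · have h3 : ‖A x‖ ^ 2 * ‖A x‖ ^ 2 ≤ (C * ‖x‖) ^ 2 * ‖A x‖ ^ 2 := by nlinarith
    have h4 : ‖A x‖ ^ 2 ≤ (C * ‖x‖) ^ 2 := le_of_mul_le_mul_right h3 (by positivity)
    exact (sq_le_sq₀ h0.le (by positivity)).1 h4

end

theorem kyf (qfo : QfoStmt) : KyfStmt := by
  intro H _ _ _ T T' v v' μ μ' N s hT hT' hle hs
  obtain ⟨hsy, -, hpo, -⟩ := qfo H T v μ hT
  obtain ⟨hsy', -, hpo', -⟩ := qfo H T' v' μ' hT'
  set A : H →L[ℝ] H := T - T' with hA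
  have hAv : ∀ x, A x = T x - T' x := fun x => rfl
  have hAs : ∀ h k, ⟪A h, k⟫_ℝ = ⟪h, A k⟫_ℝ := by
    intro h k
    rw [hAv, hAv, inner_sub_left, inner_sub_right, hsy, hsy']
  have hAq : ∀ h, ⟪A h, h⟫_ℝ = ⟪T h, h⟫_ℝ - ⟪T' h, h⟫_ℝ := by
    intro h
    rw [hAv, inner_sub_left]
  have hAp : ∀ h, 0 ≤ ⟪A h, h⟫_ℝ := by
    intro h
    rw [hAq]
    have := hle h
    linarith
  -- the family
  let e : Fin N → H := fun j => v' j
  have he : Orthonormal ℝ e := hT'.on.comp _ Fin.val_injective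
  have hev : ∀ j : Fin N, ⟪T' (e j), e j⟫_ℝ = μ' j := by
    intro j
    show ⟪T' (v' j), v' j⟫_ℝ = _
    rw [hT'.ev, real_inner_smul_left, real_inner_self_eq_norm_sq, hT'.on.1]
    norm_num
  have hsum' : ∑ j, ⟪T' (e j), e j⟫_ℝ = ∑ k ∈ Finset.range N, μ' k := by
    rw [Finset.sum_congr rfl fun j _ => hev j, ← Fin.sum_univ_eq_sum_range]
  rw [Finset.sum_sub_distrib] at hs
  have hK1 : ∑ j, ⟪T (e j), e j⟫_ℝ ≤ ∑ k ∈ Finset.range N, μ k := by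
    have h := kyfan qfo hT e he
    rwa [Fintype.card_fin] at h
  have hge : ∑ k ∈ Finset.range N, μ' k ≤ ∑ j, ⟪T (e j), e j⟫_ℝ := by
    rw [← hsum']
    exact Finset.sum_le_sum fun j _ => hle _
  have hAe : ∑ j, ⟪A (e j), e j⟫_ℝ ≤ s := by
    rw [Finset.sum_congr rfl fun j _ => hAq (e j), Finset.sum_sub_distrib, hsum']
    linarith
  have hs0 : 0 ≤ s := le_trans (Finset.sum_nonneg fun j _ => hAp _) hAe
  have hμN : 0 < μ N := hT.pos N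
  refine norm_le A hAs hAp _ (by positivity) fun h => ?_
  -- the decomposition
  set c : Fin N → ℝ := fun j => ⟪e j, h⟫_ℝ with hc
  set x : H := ∑ j, c j • e j with hx
  set y : H := h - x with hy
  have hex : ∀ j, ⟪e j, x⟫_ℝ = c j := fun j => he.inner_right_fintype c j
  have hey : ∀ j, ⟪e j, y⟫_ℝ = 0 := by
    intro j
    rw [hy, inner_sub_right, hex]
    exact sub_self _
  have hxy : ⟪x, y⟫_ℝ = 0 := by
    rw [hx, sum_inner]
    refine Finset.sum_eq_zero fun j _ => ?_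
    rw [real_inner_smul_left, hey, mul_zero]
  have hhxy : h = x + y := by rw [hy]; abel
  have hnorm : ‖h‖ ^ 2 = ‖x‖ ^ 2 + ‖y‖ ^ 2 := by
    rw [hhxy, ← real_inner_self_eq_norm_sq, ← real_inner_self_eq_norm_sq,
      ← real_inner_self_eq_norm_sq, inner_add_left, inner_add_right, inner_add_right,
      real_inner_comm x y, hxy]
    ring
  have hxn : ‖x‖ ^ 2 = ∑ j, c j ^ 2 := by
    rw [← real_inner_self_eq_norm_sq]
    nth_rw 1 [hx]
    rw [sum_inner]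
    refine Finset.sum_congr rfl fun j _ => ?_
    rw [real_inner_smul_left, hex]
    ring
  -- the part x
  have hAx : ⟪A x, x⟫_ℝ ≤ s * ‖x‖ ^ 2 := by
    have h1 : ⟪A x, x⟫_ℝ = ∑ j, c j * ⟪A x, e j⟫_ℝ := by
      nth_rw 2 [hx]
      rw [inner_sum]
      exact Finset.sum_congr rfl fun j _ => by rw [real_inner_smul_right]
    have h2 : ⟪A x, x⟫_ℝ ^ 2 ≤ (∑ j, c j ^ 2) * ∑ j, ⟪A x, e j⟫_ℝ ^ 2 := by
      nth_rw 1 [h1]
      exact Finset.sum_mul_sq_le_sq_mul_sq _ _ _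
    have h3 : ∑ j, ⟪A x, e j⟫_ℝ ^ 2 ≤ ⟪A x, x⟫_ℝ * s := by
      calc ∑ j, ⟪A x, e j⟫_ℝ ^ 2 ≤ ∑ j, ⟪A x, x⟫_ℝ * ⟪A (e j), e j⟫_ℝ :=
            Finset.sum_le_sum fun j _ => csf A hAs hAp x (e j)
        _ = ⟪A x, x⟫_ℝ * ∑ j, ⟪A (e j), e j⟫_ℝ := by rw [Finset.mul_sum]
        _ ≤ _ := mul_le_mul_of_nonneg_left hAe (hAp x)
    rw [← hxn] at h2
    have h4 : ⟪A x, x⟫_ℝ ^ 2 ≤ ‖x‖ ^ 2 * (⟪A x, x⟫_ℝ * s) :=
      h2.trans (mul_le_mul_of_nonneg_left h3 (by positivity))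
    rcases eq_or_lt_of_le (hAp x) with h0 | h0
    · rw [← h0]
      positivity
    · have h5 : ⟪A x, x⟫_ℝ * ⟪A x, x⟫_ℝ ≤ (s * ‖x‖ ^ 2) * ⟪A x, x⟫_ℝ := by nlinarith
      exact le_of_mul_le_mul_right h5 h0
  -- the part y
  have hAy : ⟪A y, y⟫_ℝ ≤ (μ N + s) * ‖y‖ ^ 2 := by
    rcases eq_or_ne y 0 with h0 | h0
    · rw [h0]
      simp
    · have hny : ‖y‖ ≠ 0 := norm_ne_zero_iff.2 h0
      set u : H := ‖y‖⁻¹ • y with hu
      have hun : ‖u‖ = 1 := by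
        rw [hu, norm_smul, norm_inv, norm_norm, inv_mul_cancel₀ hny]
      have heu : ∀ j, ⟪e j, u⟫_ℝ = 0 := by
        intro j
        rw [hu, real_inner_smul_right, hey, mul_zero]
      let e' : Option (Fin N) → H := fun o => o.elim u e
      have he' : Orthonormal ℝ e' := by
        rw [orthonormal_iff_ite]
        intro i j
        rcases i with _ | i <;> rcases j with _ | j
        · show ⟪u, u⟫_ℝ = _
          rw [real_inner_self_eq_norm_sq, hun]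
          simp
        · show ⟪u, e j⟫_ℝ = _
          rw [real_inner_comm, heu]
          simp
        · show ⟪e i, u⟫_ℝ = _
          rw [heu]
          simp
        · show ⟪e i, e j⟫_ℝ = _
          rw [orthonormal_iff_ite.1 he i j]
          simp
      have hk := kyfan qfo hT e' he'
      rw [Fintype.card_option, Fintype.card_fin, Finset.sum_range_succ, Fintype.sum_option] at hk
      have hk' : ⟪T u, u⟫_ℝ + ∑ j, ⟪T (e j), e j⟫_ℝ ≤ ∑ k ∈ Finset.range N, μ k + μ N := hk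
      have hTu : ⟪T u, u⟫_ℝ ≤ μ N + s := by linarith
      have hTy : ⟪T y, y⟫_ℝ = ‖y‖ ^ 2 * ⟪T u, u⟫_ℝ := by
        have hyu : y = ‖y‖ • u := by
          rw [hu, smul_smul, mul_inv_cancel₀ hny, one_smul]
        nth_rw 1 [hyu]
        nth_rw 2 [hyu]
        rw [map_smul, real_inner_smul_left, real_inner_smul_right]
        ring
      have h1 : ⟪A y, y⟫_ℝ ≤ ⟪T y, y⟫_ℝ := by
        rw [hAq]
        have := (hpo' y).1
        linarith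
      calc ⟪A y, y⟫_ℝ ≤ ‖y‖ ^ 2 * ⟪T u, u⟫_ℝ := by rw [← hTy]; exact h1
        _ ≤ ‖y‖ ^ 2 * (μ N + s) := mul_le_mul_of_nonneg_left hTu (by positivity)
        _ = _ := by ring
  have hpar : ⟪A h, h⟫_ℝ ≤ 2 * ⟪A x, x⟫_ℝ + 2 * ⟪A y, y⟫_ℝ := by
    have e3 : ⟪A h, h⟫_ℝ = ⟪A (x + y), x + y⟫_ℝ := by rw [← hhxy]
    rw [e3]
    exact par A hAp x y
  have hxx : 0 ≤ ‖x‖ ^ 2 := by positivity
  calc ⟪A h, h⟫_ℝ ≤ 2 * ⟪A x, x⟫_ℝ + 2 * ⟪A y, y⟫_ℝ := hpar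
    _ ≤ 2 * (s * ‖x‖ ^ 2) + 2 * ((μ N + s) * ‖y‖ ^ 2) := by linarith
    _ ≤ 2 * (μ N + s) * ‖h‖ ^ 2 := by
      rw [hnorm]
      nlinarith

end Pool.Agent.BEQ.H58
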